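import Pool.Agent.H91.TC.Basic
import Pool.Agent.H88.CM.Cha

/-!
MP_43af95_an, row CVC: composition of sequences converging in the `C²` topology.
-/

open Set Function Topology Metric Filter
open scoped Manifold

namespace Pool.Agent.H94.TSC

open Pool.Agent.H88.CL Pool.Agent.H88.CM Pool.Agent.H91.TC

theorem pf_CVC : T_CVC := by
  intro n M _ _ _ _ g g' f f' hg hg' hf hf' hC hC'
  refine ⟨?_, ?_⟩
  · intro y
    have h1 : Tendsto (fun p : ℕ × M => (p.1, g p.1 p.2)) (atTop ×ˢ 𝓝 y)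
        (atTop ×ˢ 𝓝 (f y)) := tendsto_fst.prodMk (hC.c0 y)
    exact (hC'.c0 (f y)).comp h1
  · intro y φ ψ hφ hψ hy hfy
    set χ : Ch n M := chartAt (E n) (f y) with hχd
    have hχ : χ ∈ MA n M := IsManifold.chart_mem_maximalAtlas (f y)
    have hχs : f y ∈ χ.source := mem_chart_source (E n) (f y)
    have hφt : φ y ∈ φ.target := φ.map_source hy
    have hsy : φ.symm (φ y) = y := φ.left_inv hy
    have t1 : Tendsto (fun p : ℕ × E n => φ.symm p.2) (atTop ×ˢ 𝓝 (φ y)) (𝓝 y) := by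
      have h := (φ.symm.continuousAt hφt).tendsto
      rw [hsy] at h
      exact h.comp tendsto_snd
    have t2 : Tendsto (fun p : ℕ × E n => (p.1, φ.symm p.2)) (atTop ×ˢ 𝓝 (φ y))
        (atTop ×ˢ 𝓝 y) := tendsto_fst.prodMk t1
    have t3 : Tendsto (fun p : ℕ × E n => g p.1 (φ.symm p.2)) (atTop ×ˢ 𝓝 (φ y))
        (𝓝 (f y)) := (hC.c0 y).comp t2
    have t4 : Tendsto (fun p : ℕ × E n => g' p.1 (g p.1 (φ.symm p.2))) (atTop ×ˢ 𝓝 (φ y))
        (𝓝 (f' (f y))) := (hC'.c0 (f y)).comp (tendsto_fst.prodMk t3)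
    have e1 : ∀ᶠ p : ℕ × E n in atTop ×ˢ 𝓝 (φ y), p.2 ∈ φ.target :=
      tendsto_snd.eventually (φ.open_target.mem_nhds hφt)
    have e2 : ∀ᶠ p : ℕ × E n in atTop ×ˢ 𝓝 (φ y), g p.1 (φ.symm p.2) ∈ χ.source :=
      t3.eventually (χ.open_source.mem_nhds hχs)
    have e3 : ∀ᶠ p : ℕ × E n in atTop ×ˢ 𝓝 (φ y), g' p.1 (g p.1 (φ.symm p.2)) ∈ ψ.source :=
      t4.eventually (ψ.open_source.mem_nhds hfy)
    have h1 := hC.c2 y φ χ hφ hχ hy hχs
    have h10 : Tendsto (fun p : ℕ × E n => rep φ χ (g p.1) p.2) (atTop ×ˢ 𝓝 (φ y))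
        (𝓝 (χ (f y))) := by
      have h := (continuous_fst.tendsto (jet (rep φ χ f) (φ y))).comp h1
      have e : (jet (rep φ χ f) (φ y)).1 = χ (f y) := by
        change χ (f (φ.symm (φ y))) = χ (f y)
        rw [hsy]
      rw [e] at h
      exact h
    have h2 := (hC'.c2 (f y) χ ψ hχ hψ hχs hfy).comp
      ((tendsto_fst (f := (atTop : Filter ℕ)) (g := 𝓝 (φ y))).prodMk h10)
    have hF : ∀ᶠ p : ℕ × E n in atTop ×ˢ 𝓝 (φ y),
        ContDiffAt ℝ 2 ((fun p : ℕ × E n => rep φ χ (g p.1)) p) ((fun p : ℕ × E n => p.2) p) := by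
      filter_upwards [e1, e2] with p p1 p2
      exact rep_contDiffAt hφ hχ (hg p.1) p1 p2
    have hG : ∀ᶠ p : ℕ × E n in atTop ×ˢ 𝓝 (φ y),
        ContDiffAt ℝ 2 ((fun p : ℕ × E n => rep χ ψ (g' p.1)) p)
          ((fun p : ℕ × E n => rep φ χ (g p.1)) p ((fun p : ℕ × E n => p.2) p)) := by
      filter_upwards [e1, e2, e3] with p p1 p2 p3
      refine rep_contDiffAt hχ hψ (hg' p.1) (χ.map_source p2) ?_
      change g' p.1 (χ.symm (χ (g p.1 (φ.symm p.2)))) ∈ ψ.source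
      rw [χ.left_inv p2]
      exact p3
    have h3 := jet_tendsto_comp hF hG h1 h2
    have hlim : jet (rep φ ψ (f' ∘ f)) (φ y) =
        jc (jet (rep χ ψ f') (χ (f y))) (jet (rep φ χ f) (φ y)) := by
      have hfs : f (φ.symm (φ y)) ∈ χ.source := by rw [hsy]; exact hχs
      have a1 : ContDiffAt ℝ 2 (rep φ χ f) (φ y) := rep_contDiffAt hφ hχ hf hφt hfs
      have a0 : rep φ χ f (φ y) = χ (f y) := by
        change χ (f (φ.symm (φ y))) = χ (f y)
        rw [hsy]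
      have a2 : ContDiffAt ℝ 2 (rep χ ψ f') (rep φ χ f (φ y)) := by
        rw [a0]
        refine rep_contDiffAt hχ hψ hf' (χ.map_source hχs) ?_
        rw [χ.left_inv hχs]
        exact hfy
      rw [jet_congr (rep_comp_eventually (χ := ψ) (g := f') hf.continuous hφt hfs),
        jet_comp a1 a2, a0]
    rw [hlim]
    refine h3.congr' ?_
    filter_upwards [e1, e2] with p p1 p2
    exact (jet_congr (rep_comp_eventually (χ := ψ) (g := g' p.1) (hg p.1).continuous p1 p2)).symm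

end Pool.Agent.H94.TSC
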